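import Pool.Agent.J4H50.YJ.Stm

set_option autoImplicit false

/-! # Multiplication of the coordinates by powers of `t` -/

namespace Pool.Agent.J4H82.YJ

open MvPolynomial
open Pool.Agent.W428.MOT
open Pool.Agent.TH192.MT (ar coeff_ar)
open Pool.Agent.J4H50.YJ

section

variable {K : Type} [Field K]

/-- a cylinder of level `N` is one of every larger level -/
theorem cyl_mono {σ : Type} {A : Set (Ac K σ)} {N N' : ℕ} (h : Cyl A N) (hN : N ≤ N') :
    Cyl A N' := by
  refine ⟨fun x y hxy hx => h.1 x y (fun i j hj => hxy i j (hj.trans hN)) hx, ?_⟩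
  have h1 := h.2.preimage (fun z : Pt K (σ × Fin (N' + 1)) =>
    fun q : σ × Fin (N + 1) => z (q.1, Fin.castLE (Nat.succ_le_succ hN) q.2))
    fun q => IsPF.coord _
  have h2 : {z : Pt K (σ × Fin (N' + 1)) | ar z ∈ A} = {z | (fun q : σ × Fin (N + 1) =>
      z (q.1, Fin.castLE (Nat.succ_le_succ hN) q.2)) ∈ {z : Pt K (σ × Fin (N + 1)) | ar z ∈ A}} := by
    ext z
    have h3 : ∀ i, ∀ j ≤ N, PowerSeries.coeff j (ar z i) = PowerSeries.coeff j
        (ar (fun q : σ × Fin (N + 1) => z (q.1, Fin.castLE (Nat.succ_le_succ hN) q.2)) i) := by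
      intro i j hj
      rw [coeff_ar, coeff_ar, dif_pos (by omega), dif_pos (by omega)]
      rfl
    exact ⟨fun hz => h.1 _ _ h3 hz, fun hz => h.1 _ _ (fun i j hj => (h3 i j hj).symm) hz⟩
  rw [h2]
  exact h1

/-- the set of the `t ^ m y`, `y ∈ A` -/
def sc {σ : Type} (m : σ → ℕ) (A : Set (Ac K σ)) : Set (Ac K σ) :=
  {x | ∃ y ∈ A, ∀ i, x i = PowerSeries.X ^ m i * y i}

theorem mem_sc {σ : Type} (m : σ → ℕ) (A : Set (Ac K σ)) (x : Ac K σ) :
    x ∈ sc m A ↔ (∀ i, ∀ j < m i, PowerSeries.coeff j (x i) = 0) ∧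
      (fun i => PowerSeries.mk fun j => PowerSeries.coeff (j + m i) (x i)) ∈ A := by
  constructor
  · rintro ⟨y, hy, h⟩
    refine ⟨fun i j hj => ?_, ?_⟩
    · rw [h, PowerSeries.coeff_X_pow_mul', if_neg (by omega)]
    · have h1 : (fun i => PowerSeries.mk fun j => PowerSeries.coeff (j + m i) (x i)) = y := by
        funext i
        ext j
        rw [PowerSeries.coeff_mk, h, PowerSeries.coeff_X_pow_mul]
      rw [h1]
      exact hy
  · rintro ⟨h1, h2⟩
    refine ⟨_, h2, fun i => ?_⟩
    ext j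
    rw [PowerSeries.coeff_X_pow_mul']
    split_ifs with h
    · rw [PowerSeries.coeff_mk, Nat.sub_add_cancel h]
    · exact h1 i j (by omega)

/-- the shift of a jet -/
noncomputable def sh {σ : Type} (m : σ → ℕ) (N : ℕ) (z : Pt K (σ × Fin (N + 1))) :
    Pt K (σ × Fin (N + 1)) :=
  fun q => if h : q.2.val + m q.1 < N + 1 then z (q.1, ⟨q.2.val + m q.1, h⟩) else 0

theorem sh_pf {σ : Type} (m : σ → ℕ) (N : ℕ) (q : σ × Fin (N + 1)) :
    IsPF fun z : Pt K (σ × Fin (N + 1)) => sh m N z q := by
  unfold sh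
  split_ifs with h
  · exact IsPF.coord _
  · exact IsPF.zero

theorem ar_sh {σ : Type} (m : σ → ℕ) (N : ℕ) (z : Pt K (σ × Fin (N + 1))) :
    ar (sh m N z) = fun i => PowerSeries.mk fun j => PowerSeries.coeff (j + m i) (ar z i) := by
  funext i
  ext j
  rw [PowerSeries.coeff_mk, coeff_ar, coeff_ar]
  by_cases h : j + m i < N + 1
  · rw [dif_pos (show j < N + 1 by omega), dif_pos h]
    exact dif_pos h
  · rw [dif_neg h]
    split_ifs with h1
    · exact dif_neg h
    · rfl

/-- the shift back -/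
noncomputable def hs {σ : Type} (m : σ → ℕ) (N : ℕ) (z : Pt K (σ × Fin (N + 1))) :
    Pt K (σ × Fin (N + 1)) :=
  fun q => if m q.1 ≤ q.2.val then z (q.1, ⟨q.2.val - m q.1, by omega⟩) else 0

theorem hs_pf {σ : Type} (m : σ → ℕ) (N : ℕ) (q : σ × Fin (N + 1)) :
    IsPF fun z : Pt K (σ × Fin (N + 1)) => hs m N z q := by
  unfold hs
  split_ifs with h
  · exact IsPF.coord _
  · exact IsPF.zero

theorem cyl_sc {σ : Type} [Fintype σ] (m : σ → ℕ) {A : Set (Ac K σ)} {N : ℕ} (hA : Cyl A N) :
    Cyl (sc m A) (N + ∑ i, m i) := by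
  have hm : ∀ i, m i ≤ ∑ i, m i := fun i =>
    Finset.single_le_sum (f := m) (fun _ _ => Nat.zero_le _) (Finset.mem_univ i)
  constructor
  · intro x y hxy hx
    rw [mem_sc] at hx ⊢
    refine ⟨fun i j hj => ?_, ?_⟩
    · rw [← hxy i j (by have := hm i; omega)]
      exact hx.1 i j hj
    · refine hA.1 _ _ (fun i j hj => ?_) hx.2
      rw [PowerSeries.coeff_mk, PowerSeries.coeff_mk, hxy i _ (by have := hm i; omega)]
  · have h1 : Constr {z : Pt K (σ × Fin (N + ∑ i, m i + 1)) |
        (∀ q : σ × Fin (N + ∑ i, m i + 1), q.2.val < m q.1 → z q = 0) ∧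
        sh m _ z ∈ {z : Pt K (σ × Fin (N + ∑ i, m i + 1)) | ar z ∈ A}} :=
      Constr.and (Constr.all fun q => Constr.imp' fun _ => Constr.eqz (IsPF.coord q))
        ((cyl_mono hA (Nat.le_add_right _ _)).2.preimage (sh m _) (sh_pf m _))
    have h2 : {z : Pt K (σ × Fin (N + ∑ i, m i + 1)) | ar z ∈ sc m A} =
        {z : Pt K (σ × Fin (N + ∑ i, m i + 1)) |
        (∀ q : σ × Fin (N + ∑ i, m i + 1), q.2.val < m q.1 → z q = 0) ∧
        sh m _ z ∈ {z : Pt K (σ × Fin (N + ∑ i, m i + 1)) | ar z ∈ A}} := by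
      ext z
      simp only [Set.mem_ofPred_eq]
      rw [mem_sc, ar_sh]
      refine and_congr ⟨fun h q hq => ?_, fun h i j hj => ?_⟩ Iff.rfl
      · have h3 := h q.1 q.2.val hq
        rw [coeff_ar, dif_pos q.2.isLt] at h3
        exact h3
      · rw [coeff_ar, dif_pos (show j < N + ∑ i, m i + 1 by have := hm i; omega)]
        exact h (i, ⟨j, _⟩) hj
    rw [h2]
    exact h1

end

/-- (SC) multiplication of the coordinates by powers of `t` -/
theorem t_SC : S_V0 → S_SC := by
  classical
  intro V0 K _ R _ M v hv σ _ m A hA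
  obtain ⟨N, hA⟩ := hA
  have hm : ∀ i, m i ≤ ∑ i, m i := fun i =>
    Finset.single_le_sum (f := m) (fun _ _ => Nat.zero_le _) (Finset.mem_univ i)
  have hB := cyl_sc m hA
  have hA' : Cyl A (N + ∑ i, m i) := cyl_mono hA (Nat.le_add_right _ _)
  change IsCyl (sc m A) ∧ vol M v (sc m A) = v ^ (∑ i, m i) * vol M v A
  refine ⟨⟨_, hB⟩, ?_⟩
  rw [V0 M v hv A _ hA', V0 M v hv _ _ hB]
  set N' := N + ∑ i, m i with hN'
  set F1 : Finset (σ × Fin (N' + 1)) := Finset.univ.filter fun q => N' < q.2.val + m q.1 with hF1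
  have hfree := Pool.Agent.W417.MT.Free.main M {z : Pt K (σ × Fin (N' + 1)) | ar z ∈ A} ∅ F1
    (fun _ => 0) (Finset.disjoint_empty_left _) hA'.2 (by
      intro z w hzw hz
      refine hA.1 _ _ (fun i j hj => ?_) hz
      have hlt : j < N' + 1 := by omega
      rw [coeff_ar, coeff_ar, dif_pos hlt, dif_pos hlt]
      refine (hzw (i, ⟨j, hlt⟩) (Finset.notMem_empty _) ?_).symm
      intro h
      have h1 := (Finset.mem_filter.1 h).2
      have h2 := hm i
      simp only at h1
      omega)
  simp only [Finset.notMem_empty, false_imp_iff, implies_true, Set.ofPred_true, Set.inter_univ,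
    Finset.empty_union, map_zero, Finset.card_empty, pow_zero, mul_one] at hfree
  have hcard : F1.card = ∑ i, m i := by
    rw [hF1, Finset.card_filter, ← Finset.univ_product_univ, Finset.sum_product]
    refine Finset.sum_congr rfl fun i _ => ?_
    rw [← Finset.card_filter]
    have h3 := hm i
    have h4 : (Finset.univ.filter fun j : Fin (N' + 1) => N' < j.val + m i).card = m i := by
      have h5 : (Finset.univ.filter fun j : Fin (N' + 1) => N' < j.val + m i).map
          Fin.valEmbedding = Finset.Ico (N' + 1 - m i) (N' + 1) := by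
        ext j
        simp only [Finset.mem_map, Finset.mem_filter, Finset.mem_univ, true_and,
          Fin.valEmbedding_apply, Finset.mem_Ico]
        constructor
        · rintro ⟨a, ha, rfl⟩
          have := a.isLt
          omega
        · rintro ⟨h6, h7⟩
          exact ⟨⟨j, h7⟩, by simp only; omega, rfl⟩
      rw [← Finset.card_map Fin.valEmbedding, h5, Nat.card_Ico]
      omega
    exact h4
  have hiso : M.χ (σ × Fin (N' + 1)) {z | ar z ∈ sc m A} = M.χ (σ × Fin (N' + 1))
      ({z | ar z ∈ A} ∩ {z | ∀ q ∈ F1, z q = 0}) := by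
    refine M.iso _ _ hB.2 ?_ (sh m N') (hs m N') (regularOn_poly (sh_pf m N') _)
      (regularOn_poly (hs_pf m N') _) ?_ ?_ ?_ ?_
    · exact hA'.2.inter (Constr.ballFinset F1 fun q _ => Constr.eqz (IsPF.coord q))
    · intro z hz
      rw [Set.mem_ofPred_eq, mem_sc] at hz
      refine ⟨?_, fun q hq => ?_⟩
      · rw [Set.mem_ofPred_eq, ar_sh]
        exact hz.2
      · have h1 := (Finset.mem_filter.1 hq).2
        exact dif_neg (by omega)
    · rintro w ⟨hw, hw0⟩
      rw [Set.mem_ofPred_eq] at hw hw0 ⊢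
      refine ⟨ar w, hw, fun i => ?_⟩
      ext j
      rw [PowerSeries.coeff_X_pow_mul', coeff_ar, coeff_ar]
      by_cases h1 : m i ≤ j
      · rw [if_pos h1]
        by_cases h2 : j < N' + 1
        · rw [dif_pos h2, dif_pos (show j - m i < N' + 1 by omega)]
          exact if_pos h1
        · rw [dif_neg h2]
          split_ifs with h3
          · refine (hw0 _ ?_).symm
            rw [hF1, Finset.mem_filter]
            refine ⟨Finset.mem_univ _, ?_⟩
            simp only
            omega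
          · rfl
      · rw [if_neg h1]
        split_ifs with h2
        · exact if_neg h1
        · rfl
    · intro z hz
      rw [Set.mem_ofPred_eq, mem_sc] at hz
      funext q
      change (if m q.1 ≤ q.2.val then sh m N' z (q.1, ⟨q.2.val - m q.1, by omega⟩) else 0) = z q
      split_ifs with h1
      · have h2 : (q.2.val - m q.1) + m q.1 < N' + 1 := by
          have := q.2.isLt
          omega
        refine (dif_pos h2).trans ?_
        congr 1
        refine Prod.ext rfl (Fin.ext ?_)
        simp only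
        omega
      · have h2 := hz.1 q.1 q.2.val (by omega)
        rw [coeff_ar, dif_pos q.2.isLt] at h2
        exact h2.symm
    · rintro w ⟨hw, hw0⟩
      funext q
      change (if h : q.2.val + m q.1 < N' + 1 then hs m N' w (q.1, ⟨q.2.val + m q.1, h⟩) else 0) = w q
      split_ifs with h1
      · refine (if_pos (show m q.1 ≤ q.2.val + m q.1 by omega)).trans ?_
        congr 1
        refine Prod.ext rfl (Fin.ext ?_)
        simp only
        omega
      · refine (hw0 q ?_).symm
        rw [hF1, Finset.mem_filter]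
        exact ⟨Finset.mem_univ _, by omega⟩
  rw [hiso, hfree, hcard]
  have hv' : v ^ (∑ i, m i) * M.L ^ (∑ i, m i) = 1 := by
    rw [← mul_pow, mul_comm v, hv, one_pow]
  calc _ = (v ^ (∑ i, m i) * M.L ^ (∑ i, m i)) * (M.χ (σ × Fin (N' + 1))
      ({z | ar z ∈ A} ∩ {z | ∀ q ∈ F1, z q = 0}) * v ^ (Fintype.card σ * (N' + 1))) := by
        rw [hv', one_mul]
    _ = _ := by ring

end Pool.Agent.J4H82.YJ
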